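import Pool.Agent.U469.RT.Stm

/-!
Project RT, package OPT: translations.
-/

set_option autoImplicit false

namespace Pool.Agent.U128.RT.OPT

open Pool.Agent.R248.Ritt Finset Filter Topology Pool.Agent.U469.RT

/-- the index `max (|k| - 1) 0` -/
def idx (k : ℤ) : ℤ := max (|k| - 1) 0

lemma idx_nonneg (k : ℤ) : 0 ≤ idx k := le_max_right _ _

lemma step {Φ : A} (h : SU Φ) : ∃ Ψ : A, SU Ψ ∧ (∀ k, Ψ.coeff k = Φ.coeff (idx k)) ∧
    N1 Ψ = N1 Φ + 2 * Φ.coeff 0 := by
  obtain ⟨N, hN⟩ := exists_bound Φ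
  have hfin : ∀ k : ℤ, Φ.coeff (idx k) ≠ 0 → k ∈ Icc (-(N + 1 : ℤ)) (N + 1) := by
    intro k hk
    by_contra hcon
    apply hk
    have h1 : (N : ℤ) ≤ idx k := by
      unfold idx
      rw [mem_Icc] at hcon
      have : (N : ℤ) + 1 < |k| := by
        by_contra h2
        push Not at h2
        rw [abs_le] at h2
        exact hcon h2
      exact le_trans (by omega) (le_max_left _ _)
    have h2 := hN (idx k).toNat (by omega)
    rwa [Int.toNat_of_nonneg (idx_nonneg k)] at h2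
  let Ψ : A := AddMonoidAlgebra.ofCoeff
    (Finsupp.onFinset (Icc (-(N + 1 : ℤ)) (N + 1)) (fun k => Φ.coeff (idx k)) hfin)
  have hc : ∀ k, Ψ.coeff k = Φ.coeff (idx k) := fun k => rfl
  have hnn : ∀ k, |Ψ.coeff k| = Φ.coeff (idx k) := fun k => by
    rw [hc, abs_of_nonneg (h.nonneg _)]
  have hnn' : ∀ k, |Φ.coeff k| = Φ.coeff k := fun k => abs_of_nonneg (h.nonneg _)
  refine ⟨Ψ, ⟨fun k => ?_, fun k => ?_, fun k hk => ?_⟩, hc, ?_⟩
  · rw [hc]; exact h.nonneg _
  · rw [hc, hc]; unfold idx; rw [abs_neg]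
  · rw [hc, hc]
    apply h.le
    rw [abs_of_nonneg (idx_nonneg _), abs_of_nonneg (idx_nonneg _)]
    unfold idx
    rw [abs_of_nonneg hk, abs_of_nonneg (by omega : 0 ≤ k + 1)]
    omega
  · have s1 : Summable fun n : ℕ => |Ψ.coeff (n : ℤ)| :=
      (summ Ψ).comp_injective Nat.cast_injective
    have s2 : Summable fun n : ℕ => |Ψ.coeff (-((n : ℤ) + 1))| :=
      (summ Ψ).comp_injective (fun a b hab => by
        have : (-((a : ℤ) + 1)) = (-((b : ℤ) + 1)) := hab
        omega)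
    have t1 : Summable fun n : ℕ => |Φ.coeff (n : ℤ)| :=
      (summ Φ).comp_injective Nat.cast_injective
    have t2 : Summable fun n : ℕ => |Φ.coeff (-((n : ℤ) + 1))| :=
      (summ Φ).comp_injective (fun a b hab => by
        have : (-((a : ℤ) + 1)) = (-((b : ℤ) + 1)) := hab
        omega)
    have e1 : ∑' n : ℕ, |Ψ.coeff (n : ℤ)| = Φ.coeff 0 + ∑' n : ℕ, |Φ.coeff (n : ℤ)| := by
      rw [s1.tsum_eq_zero_add]
      congr 1
      · rw [hnn]; rfl
      · apply tsum_congr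
        intro n
        rw [hnn, hnn']
        congr 1
        unfold idx
        push_cast
        rw [abs_of_nonneg (by omega : (0 : ℤ) ≤ n + 1)]
        omega
    have e2 : ∑' n : ℕ, |Ψ.coeff (-((n : ℤ) + 1))| =
        Φ.coeff 0 + ∑' n : ℕ, |Φ.coeff (-((n : ℤ) + 1))| := by
      have : ∑' n : ℕ, |Ψ.coeff (-((n : ℤ) + 1))| = ∑' n : ℕ, |Φ.coeff (n : ℤ)| := by
        apply tsum_congr
        intro n
        rw [hnn, hnn']
        congr 1
        unfold idx
        rw [abs_neg, abs_of_nonneg (by omega : (0 : ℤ) ≤ n + 1)]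
        omega
      rw [this, t1.tsum_eq_zero_add]
      congr 1
      · rw [hnn']; rfl
      · apply tsum_congr
        intro n
        rw [hnn', hnn', h.symm]
        push_cast
        rfl
    unfold N1
    have f1 : ∑' k : ℤ, |Ψ.coeff k| = ∑' n : ℕ, |Ψ.coeff (n : ℤ)| +
        ∑' n : ℕ, |Ψ.coeff (-((n : ℤ) + 1))| :=
      tsum_of_nat_of_neg_add_one (f := fun k : ℤ => |Ψ.coeff k|) s1 s2
    have f2 : ∑' k : ℤ, |Φ.coeff k| = ∑' n : ℕ, |Φ.coeff (n : ℤ)| +
        ∑' n : ℕ, |Φ.coeff (-((n : ℤ) + 1))| :=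
      tsum_of_nat_of_neg_add_one (f := fun k : ℤ => |Φ.coeff k|) t1 t2
    rw [f1, f2, e1, e2]
    ring

lemma opT (n : ℕ) (e : ℤ) (he : |e| ≤ 1) : Op 1 (2 * n) (T (n * e)) := by
  induction n with
  | zero =>
    intro g Φ hΦ hg
    refine ⟨Φ, hΦ, ?_, ?_, ?_⟩
    · intro k
      rw [coeff_T_mul]
      simpa using hg k
    · simp
    · simp
  | succ n ih =>
    intro g Φ hΦ hg
    obtain ⟨Ψ, h1, h2, h3, h4⟩ := ih g Φ hΦ hg
    obtain ⟨Ψ', k1, k2, k3⟩ := step h1
    refine ⟨Ψ', k1, ?_, ?_, ?_⟩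
    · intro k
      have e1 : T (((n + 1 : ℕ) : ℤ) * e) * g = T e * (T (n * e) * g) := by
        rw [← mul_assoc, T_mul]
        congr 2
        push_cast
        ring
      rw [e1, coeff_T_mul, k2]
      refine (h2 (k - e)).trans (h1.le ?_)
      rw [abs_of_nonneg (idx_nonneg _)]
      unfold idx
      apply max_le _ (abs_nonneg _)
      have := abs_sub_abs_le_abs_sub k e
      omega
    · rw [k3]
      have h5 : Ψ.coeff 0 ≤ Φ.coeff 0 := by linarith
      push_cast
      nlinarith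
    · rw [k2]
      exact h4

theorem t_OPT : S_OPT := by
  intro c
  rcases Int.natAbs_eq c with h | h
  · have h1 := opT c.natAbs 1 (by simp)
    rw [mul_one, ← h] at h1
    have h2 : |(c : ℝ)| = (c.natAbs : ℝ) := by
      rw [← Int.cast_abs, Int.abs_eq_natAbs]
      rfl
    rw [h2]
    exact h1
  · have h1 := opT c.natAbs (-1) (by simp)
    rw [mul_neg_one, ← h] at h1
    have h2 : |(c : ℝ)| = (c.natAbs : ℝ) := by
      rw [← Int.cast_abs, Int.abs_eq_natAbs]
      rfl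
    rw [h2]
    exact h1

end Pool.Agent.U128.RT.OPT
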